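import Pool.Agent.H35.CI.NBTa

/-!
# MP_70ba79_ag, board `ci_modules`: module NBT, part 2 (the matrix)
-/

set_option autoImplicit false

namespace Pool.Agent.H35.CI

open MvPolynomial SC Pool.Agent.H27.LV Pool.Agent.H17.VG Pool.Agent.H17.CI

section Mat

variable {R k K : Type} [Field R] [Field k] [Field K] [Algebra k K] [Algebra R K] {n s : ℕ}
  {ι : Type} {Z : Finset ι} [DecidableEq ι] {T : Type} [Fintype T] [DecidableEq T]

/-- a vector as a column -/
def vw (e0 : ((T ⊕ Fin 2) ⊕ Unit) ⊕ Z ≃ Fin n ⊕ Fin (s + 1)) (w : Fin (n + 1) → K) :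
    ((T ⊕ Fin 2) ⊕ Unit) ⊕ Z → K := fun r => Sum.elim (fun a : Fin n => w a.succ)
      (fun _ => 0) (e0 r)

/-- the matrix with the columns `0`, `0` of the last family -/
noncomputable def AA (D : Derivation k K K) (x : Fin (n + 1) → K) (t0 : T → Op R K n)
    (i0 : T → Fin (n + 1)) (j0 : T → Fin s) (tl : Fin (n + 1) → Op R K n) (J : Z → Fin n)
    (e0 : ((T ⊕ Fin 2) ⊕ Unit) ⊕ Z ≃ Fin n ⊕ Fin (s + 1)) :
    Matrix (((T ⊕ Fin 2) ⊕ Unit) ⊕ Z) (((T ⊕ Fin 2) ⊕ Unit) ⊕ Z) K :=
  (bigA D x (Sum.elim t0 (fun _ : Fin 2 => tl 0)) (Sum.elim i0 (fun _ : Fin 2 => 0))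
    (Sum.elim (fun c => (j0 c).castSucc) (fun _ => Fin.last s)) J).submatrix e0 id

variable (D : Derivation k K K) (x : Fin (n + 1) → K) (t0 : T → Op R K n)
    (i0 : T → Fin (n + 1)) (j0 : T → Fin s) (tl : Fin (n + 1) → Op R K n) (J : Z → Fin n)
    (e0 : ((T ⊕ Fin 2) ⊕ Unit) ⊕ Z ≃ Fin n ⊕ Fin (s + 1))

theorem col_eq (a : Fin (n + 1)) (w : Fin (n + 1) → K) (r : ((T ⊕ Fin 2) ⊕ Unit) ⊕ Z) :
    (vw e0 w + x a • (Pi.single (e0.symm (Sum.inr (Fin.last s))) (1 : K) :
      ((T ⊕ Fin 2) ⊕ Unit) ⊕ Z → K)) r =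
      Sum.elim (fun a : Fin n => w a.succ) (fun b' => if Fin.last s = b' then x a else 0)
        (e0 r) := by
  rw [Pi.add_apply, Pi.smul_apply, Pi.single_apply, smul_eq_mul, mul_ite, mul_one, mul_zero]
  simp only [Equiv.eq_symm_apply, vw]
  generalize e0 r = r'
  rcases r' with i | b'
  · simp
  · simp [eq_comm]

theorem M_eq (a b : Fin (n + 1)) :
    (bigA D x (Sum.elim t0 (fun t : Fin 2 => tl (if t = 0 then a else b)))
      (Sum.elim i0 (fun t : Fin 2 => if t = 0 then a else b))
      (Sum.elim (fun c => (j0 c).castSucc) (fun _ => Fin.last s)) J).submatrix e0 id =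
    ((AA D x t0 i0 j0 tl J e0).updateCol (Sum.inl (Sum.inl (Sum.inr 0))) (vw e0 (opV (tl a) x) +
      x a • Pi.single (e0.symm (Sum.inr (Fin.last s))) 1)).updateCol
      (Sum.inl (Sum.inl (Sum.inr 1)))
      (vw e0 (opV (tl b) x) + x b • Pi.single (e0.symm (Sum.inr (Fin.last s))) 1) := by
  ext r c
  rw [Matrix.updateCol_apply, Matrix.updateCol_apply, col_eq, col_eq]
  unfold AA
  simp only [Matrix.submatrix_apply, id]
  generalize e0 r = r'
  rcases c with ((c | t) | t) | t
  · rw [if_neg (by simp), if_neg (by simp)]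
    rcases r' with i | b' <;> rfl
  · rcases (show t = 0 ∨ t = 1 by omega) with rfl | rfl
    · rw [if_neg (by simp), if_pos rfl]
      rcases r' with i | b' <;> rfl
    · rw [if_pos rfl]
      rcases r' with i | b' <;> rfl
  · rw [if_neg (by simp), if_neg (by simp)]
    rcases r' with i | b' <;> rfl
  · rw [if_neg (by simp), if_neg (by simp)]
    rcases r' with i | b' <;> rfl

theorem AA_row (c : ((T ⊕ Fin 2) ⊕ Unit) ⊕ Z) (h0 : c ≠ Sum.inl (Sum.inl (Sum.inr 0)))
    (h1 : c ≠ Sum.inl (Sum.inl (Sum.inr 1))) :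
    AA D x t0 i0 j0 tl J e0 (e0.symm (Sum.inr (Fin.last s))) c = 0 := by
  unfold AA
  rw [Matrix.submatrix_apply, Equiv.apply_symm_apply, id]
  rcases c with ((c | t) | t) | t
  · show (if (j0 c).castSucc = Fin.last s then x (i0 c) else 0) = 0
    rw [if_neg (Fin.castSucc_lt_last _).ne]
  · exfalso
    rcases (show t = 0 ∨ t = 1 by omega) with rfl | rfl
    · exact h0 rfl
    · exact h1 rfl
  · rfl
  · rfl

theorem rows (w : Fin (n + 1) → K) (v : ((T ⊕ Fin 2) ⊕ Unit) ⊕ Z → K)
    (hv : (((AA D x t0 i0 j0 tl J e0).updateCol (Sum.inl (Sum.inl (Sum.inr 0)))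
      (Pi.single (e0.symm (Sum.inr (Fin.last s))) 1)).updateCol (Sum.inl (Sum.inl (Sum.inr 1)))
      (vw e0 w)).mulVec v = 0) :
    v (Sum.inl (Sum.inl (Sum.inr 0))) = 0 ∧
    (∀ j : Fin s, ∑ t : T, (if j0 t = j then x (i0 t) * v (Sum.inl (Sum.inl (Sum.inl t)))
      else 0) = 0) ∧
    ∀ a : Fin n, ∑ t : T, opV (t0 t) x a.succ * v (Sum.inl (Sum.inl (Sum.inl t))) +
      w a.succ * v (Sum.inl (Sum.inl (Sum.inr 1))) +
      D (x a.succ) * v (Sum.inl (Sum.inr ())) +
      ∑ z : Z, (if J z = a then v (Sum.inr z) else 0) = 0 := by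
  have hrow : ∀ r : Fin n ⊕ Fin (s + 1), ((∑ t : T,
      Sum.elim (fun a : Fin n => opV (t0 t) x a.succ)
        (fun b => if (j0 t).castSucc = b then x (i0 t) else 0) r *
          v (Sum.inl (Sum.inl (Sum.inl t)))) + ((if r = Sum.inr (Fin.last s) then 1 else 0) *
            v (Sum.inl (Sum.inl (Sum.inr 0))) +
          Sum.elim (fun a : Fin n => w a.succ) (fun _ => 0) r *
            v (Sum.inl (Sum.inl (Sum.inr 1)))) +
        Sum.elim (fun a : Fin n => D (x a.succ)) (fun _ => 0) r * v (Sum.inl (Sum.inr ()))) +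
        ∑ z : Z, Sum.elim (fun a : Fin n => if J z = a then (1 : K) else 0) (fun _ => 0) r *
          v (Sum.inr z) = 0 := by
    intro r
    have h1 := congrFun hv (e0.symm r)
    rw [Matrix.mulVec, dotProduct, Fintype.sum_sum_type, Fintype.sum_sum_type,
      Fintype.sum_sum_type, Fin.sum_univ_two, Fintype.univ_punit, Finset.sum_singleton] at h1
    rw [Pi.zero_apply] at h1
    refine Eq.trans ?_ h1
    congr 1
    · congr 1
      · congr 1
        · refine Finset.sum_congr rfl fun t _ => ?_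
          rw [Matrix.updateCol_apply, Matrix.updateCol_apply, if_neg (by simp),
            if_neg (by simp)]
          unfold AA
          rw [Matrix.submatrix_apply, Equiv.apply_symm_apply]
          rcases r with i | b' <;> rfl
        · congr 1
          · symm
            rw [Matrix.updateCol_apply, Matrix.updateCol_apply, if_neg (by simp), if_pos rfl,
              Pi.single_apply]
            simp only [Equiv.apply_eq_iff_eq]
          · rw [Matrix.updateCol_apply, if_pos rfl]
            unfold vw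
            rw [Equiv.apply_symm_apply]
      · rw [Matrix.updateCol_apply, Matrix.updateCol_apply, if_neg (by simp),
          if_neg (by simp)]
        unfold AA
        rw [Matrix.submatrix_apply, Equiv.apply_symm_apply]
        rcases r with i | b' <;> rfl
    · refine Finset.sum_congr rfl fun t _ => ?_
      rw [Matrix.updateCol_apply, Matrix.updateCol_apply, if_neg (by simp),
        if_neg (by simp)]
      unfold AA
      rw [Matrix.submatrix_apply, Equiv.apply_symm_apply]
      rcases r with i | b' <;> rfl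
  refine ⟨?_, ?_, ?_⟩
  · have h1 := hrow (Sum.inr (Fin.last s))
    have h2 : ∀ t : T, (if (j0 t).castSucc = Fin.last s then x (i0 t) else 0) = 0 := fun t =>
      if_neg (Fin.castSucc_lt_last _).ne
    simp only [Sum.elim_inr, h2, zero_mul, Finset.sum_const_zero, if_true, add_zero,
      zero_add, one_mul] at h1
    exact h1
  · intro j
    have h1 := hrow (Sum.inr j.castSucc)
    have h3 : (Sum.inr j.castSucc : Fin n ⊕ Fin (s + 1)) ≠ Sum.inr (Fin.last s) := by
      intro h
      exact (Fin.castSucc_lt_last j).ne (Sum.inr_injective h)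
    rw [if_neg h3] at h1
    simp only [Sum.elim_inr, zero_mul, add_zero, Fin.castSucc_inj, ite_mul,
      Finset.sum_const_zero] at h1
    exact h1
  · intro a
    have h1 := hrow (Sum.inl a)
    rw [if_neg (by simp)] at h1
    simp only [Sum.elim_inl, ite_mul, one_mul, zero_mul] at h1
    linear_combination h1

end Mat

end Pool.Agent.H35.CI
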